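import Pool.Agent.H5.DPG.Stmts

/-!
Row PLV: a level in polynomial time.
-/

set_option autoImplicit false

namespace Pool.DPG

open Filter TMLib Pool.PG

theorem plv_msk (n : ℕ) (f : ℕ → Bool) : (msk n f).length = n := by simp [msk]

theorem plv_jn (g : Game) (j : Bool) (B L : List Bool) : (jn g j B L).length ≤ g.length := by
  unfold jn
  split_ifs
  · simp
  · rw [plv_msk]

theorem plv_zs (g : Game) (S : List Bool → List Bool) (X L : List Bool) :
    (zs g S X L).length ≤ g.length := by
  unfold zs
  split_ifs
  · simp
  · rw [plv_msk]
  · exact plv_jn _ _ _ _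

theorem plv_ent (g : Game) (tb : List (List Bool × List Bool)) (Z : List Bool) :
    (ent g tb Z).length ≤ g.length := by
  unfold ent
  split_ifs
  · rw [plv_msk]
  · exact plv_zs _ _ _ _

theorem plv_tab (g : Game) (l : List (List Bool)) : ∀ (tb : List (List Bool × List Bool)),
    (∀ e ∈ tb, e.2.length ≤ g.length) →
    ∀ e ∈ l.foldl (fun tb Z => tb ++ [(Z, ent g tb Z)]) tb, e.2.length ≤ g.length := by
  induction l with
  | nil => intro tb h; simpa using h
  | cons Z l ih =>
    intro tb h
    rw [List.foldl_cons]
    refine ih _ ?_
    intro e he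
    rcases List.mem_append.1 he with he | he
    · exact h e he
    · simp only [List.mem_singleton] at he
      subst he
      exact plv_ent _ _ _

theorem plv_lk (tb : List (List Bool × List Bool)) (X : List Bool) (n : ℕ)
    (h : ∀ e ∈ tb, e.2.length ≤ n) : (lk tb X).length ≤ n := by
  unfold lk
  have h2 : ∀ y ∈ (tb.filter fun e => decide (e.1 = X)).map Prod.snd, y.length ≤ n := by
    intro y hy
    obtain ⟨e, he, rfl⟩ := List.mem_map.1 hy
    exact h e (List.mem_filter.1 he).1
  revert h2
  generalize (tb.filter fun e => decide (e.1 = X)).map Prod.snd = l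
  intro h2
  cases l with
  | nil => simp
  | cons y l => simpa using h2 y List.mem_cons_self

theorem plv_bru (c : ℕ) (g : Game) (X : List Bool) : (bru c g X).length ≤ g.length :=
  plv_lk _ _ _ (plv_tab g _ [] (by simp))

theorem plv_up (c : ℕ) (S : Game → List Bool → List Bool) (g : Game) (X L : List Bool) :
    (up c S g X L).length ≤ g.length := by
  unfold up
  split_ifs
  · exact plv_bru _ _ _
  · exact plv_zs _ _ _ _
  · exact plv_jn _ _ _ _

theorem plv_nxt (c : ℕ) (g : Game) (X : List Bool) : (nxt c g X).length = g.length := by
  unfold nxt
  split_ifs <;> exact plv_msk _ _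

theorem plv_sz (g : Game) (l : List Bool) (h : l.length ≤ g.length) : sz l ≤ 1 + sz g * 4 :=
  sz_list_le l (sz g) 3 (by have := length_lt_sz g; omega) (fun a _ => sz_bool_le a)

/-- The iterates of `nxt`, the last one first. -/
def plvL (c : ℕ) (g : Game) (X : List Bool) (t : ℕ) : List (List Bool) :=
  (List.range t).reverse.map fun k => (nxt c g)^[k] X

/-- A step. -/
def plvS (c : ℕ) (s : Game × List (List Bool)) : Game × List (List Bool) :=
  (s.1, nxt c s.1 (s.2.headD []) :: s.2)

theorem plvL_succ (c : ℕ) (g : Game) (X : List Bool) (t : ℕ) :
    plvL c g X (t + 1) = (nxt c g)^[t] X :: plvL c g X t := by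
  simp [plvL, List.range_succ]

theorem plv_it (c : ℕ) (g : Game) (X : List Bool) : ∀ t : ℕ,
    (plvS c)^[t] (g, [X]) = (g, plvL c g X (t + 1)) := by
  intro t
  induction t with
  | zero => simp [plvL]
  | succ t ih =>
    rw [Function.iterate_succ_apply', ih, plvL_succ c g X (t + 1), plvS]
    simp only [plvL_succ c g X t, List.headD_cons]
    rw [Function.iterate_succ_apply']

theorem plv_rc (c : ℕ) (S : Game → List Bool → List Bool) (g : Game) : ∀ (t : ℕ) (X : List Bool),
    rc c S g t X = (plvL c g X t).foldl (fun L Z => up c S g Z L) [] := by
  intro t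
  induction t with
  | zero => intro X; simp [rc, plvL]
  | succ t ih =>
    intro X
    have h : plvL c g X (t + 1) = plvL c g (nxt c g X) t ++ [X] := by
      simp only [plvL, List.range_succ_eq_map, List.reverse_cons, List.map_append,
        ← List.map_reverse, List.map_map, List.map_cons, List.map_nil]
      rfl
    rw [rc, ih, h, List.foldl_append]
    rfl

theorem plv_thm (h1 : PUPStmt) (h2 : PFNStmt) : PLVStmt := by
  intro c S hS
  have hup := h1 c S hS
  obtain ⟨-, hn, -⟩ := h2 c
  -- the list of the iterates
  have hstep : PTime (plvS c) := by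
    refine PTime.pair (PTime.fst PTime.id) (PTime.cons ?_ (PTime.snd PTime.id))
    refine hn.comp (f := fun s : Game × List (List Bool) => (s.1, s.2.headD [])) ?_
    refine PTime.pair (PTime.fst PTime.id) ?_
    exact (PTime.getD (PTime.head? (PTime.snd PTime.id)) (PTime.const [])).congr fun x => by
      cases x.2 <;> rfl
  have hlist : PTime (fun p : Game × List Bool => plvL c p.1 p.2 (p.1.length + 1)) := by
    have h := PTime.iter (f := plvS c) (s := fun p : Game × List Bool => (p.1, [p.2]))
      (n := fun p => p.1.length) hstep
      (PTime.pair (PTime.fst PTime.id) (PTime.cons (PTime.snd PTime.id) (PTime.const [])))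
      (PTime.length (PTime.fst PTime.id))
      (h := fun p => 2 + sz p + sz p * (2 + sz p + sz p * 4))
      (((PB.const 2).add PB.sz_self).add (PB.sz_self.mul
        (((PB.const 2).add PB.sz_self).add (PB.sz_self.mul (PB.const 4))))) (by
        rintro ⟨g, X⟩ i hi
        simp only at hi
        rw [plv_it]
        have hg : sz g ≤ sz (g, X) := by simp only [sz_pair]; omega
        have hX : sz X ≤ sz (g, X) := by simp only [sz_pair]; omega
        have hgX : 1 + sz g + sz X = sz (g, X) := by simp only [sz_pair]
        have h3 : sz (plvL c g X (i + 1)) ≤ 1 + sz (g, X) * (1 + (1 + sz (g, X) + sz (g, X) * 4)) := by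
          refine sz_list_le _ _ _ ?_ ?_
          · have := length_lt_sz g
            simp only [plvL, List.length_map, List.length_reverse, List.length_range]
            omega
          · intro y hy
            obtain ⟨k, -, rfl⟩ := List.mem_map.1 hy
            cases k with
            | zero =>
              simp only [Function.iterate_zero, _root_.id]
              omega
            | succ k =>
              rw [Function.iterate_succ_apply']
              have := plv_sz g (nxt c g ((nxt c g)^[k] X)) (plv_nxt _ _ _).le
              omega
        rw [sz_pair]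
        simp only
        have h4 : sz (g, X) * (1 + (1 + sz (g, X) + sz (g, X) * 4)) =
          sz (g, X) * (2 + sz (g, X) + sz (g, X) * 4) := by ring
        rw [h4] at h3
        omega)
    exact (PTime.snd h).congr fun p => by rw [plv_it]
  have hfold := PTime.foldl (f := fun (p : Game × List Bool) (L Z : List Bool) => up c S p.1 Z L)
    (init := fun _ : Game × List Bool => ([] : List Bool))
    (l := fun p => plvL c p.1 p.2 (p.1.length + 1))
    (hup.comp (f := fun q : (Game × List Bool) × List Bool × List Bool =>
      (q.1.1, q.2.2, q.2.1)) (by fun_prop))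
    (PTime.const []) hlist (h := fun p => 1 + sz p * 4)
    ((PB.const 1).add (PB.sz_self.mul (PB.const 4))) (by
      rintro ⟨g, X⟩ l' -
      have hg : sz g ≤ sz (g, X) := by simp only [sz_pair]; omega
      have h3 : ∀ (l : List (List Bool)) (L : List Bool), L.length ≤ g.length →
          (l.foldl (fun L Z => up c S g Z L) L).length ≤ g.length := by
        intro l
        induction l with
        | nil => intro L hL; simpa using hL
        | cons Z l ih =>
          intro L _
          rw [List.foldl_cons]
          exact ih _ (plv_up _ _ _ _ _)
      have h4 := plv_sz g _ (h3 l' [] (by simp))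
      simp only
      omega)
  exact hfold.congr fun p => by
    rw [lev, plv_rc]

end Pool.DPG
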